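import Pool.Agent.Helper54.SP.StmtsP

namespace Pool.Agent.Helper54.SP

open Finset

/-- an affine function that is constant on a set is constant on its affine span -/
theorem fac_span {d : ℕ} (l : (Fin d → ℝ) →ₗ[ℝ] ℝ) (c : ℝ) (S : Set (Fin d → ℝ))
    (hS : ∀ x ∈ S, l x = c) (z : Fin d → ℝ) (hz : z ∈ affineSpan ℝ S) : l z = c := by
  have h1 : l.toAffineMap z ∈ (affineSpan ℝ S).map l.toAffineMap :=
    AffineSubspace.mem_map_of_mem l.toAffineMap hz
  rw [AffineSubspace.map_span] at h1
  have h2 : l.toAffineMap '' S ⊆ {c} := by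
    rintro _ ⟨x, hx, rfl⟩
    exact hS x hx
  have h3 := affineSpan_mono ℝ h2 h1
  rw [AffineSubspace.mem_affineSpan_singleton] at h3
  exact h3

theorem fac_zero (d : ℕ) (X : ℕ → ℕ → ℝ) (f : List ℕ) (hlen : f.length = d) (i : ℕ)
    (hi : i ∈ f) : dt (d + 1) X (f ++ [i]) = 0 := by
  obtain ⟨a, ha, hai⟩ := List.mem_iff_getElem.1 hi
  unfold dt
  have had : a < d := by omega
  refine Matrix.det_zero_of_row_eq (i := (⟨a, by omega⟩ : Fin (d + 1))) (j := Fin.last d) ?_ ?_
  · intro h
    have := congrArg Fin.val h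
    simp at this
    omega
  · funext j
    simp only [Matrix.of_apply, Fin.val_last]
    rw [List.getD_append _ _ _ _ ha, List.getD_append_right _ _ _ _ (by omega), hlen,
      Nat.sub_self, List.getD_cons_zero, List.getD_eq_getElem _ _ ha, hai]

theorem st_FAC (hPF : ST_PF) (hPJ : ST_PJ) : ST_FAC := by
  classical
  rintro d n F hd hval ⟨p, hinj, hspan, hext, hfac⟩
  let P : ℕ → Fin d → ℝ := fun i => if h : i < n then p ⟨i, h⟩ else 0
  have hP : ∀ (i : ℕ) (h : i < n), P i = p ⟨i, h⟩ := fun i h => dif_pos h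
  refine ⟨hom d P, ?_⟩
  intro f hf
  obtain ⟨hlen, hnd, hlt⟩ := hval f hf
  obtain ⟨l, c, hle, hQ, hne, hdim⟩ := (hfac _).2 ⟨f, hf, rfl⟩
  obtain ⟨L, c', hL⟩ := hPF d P f hlen
  have hSr : p '' {i | (i : ℕ) ∈ f} = Set.range (fun i : f.toFinset => P i) := by
    ext z
    constructor
    · rintro ⟨i, hi, rfl⟩
      exact ⟨⟨i, List.mem_toFinset.2 hi⟩, hP i i.2⟩
    · rintro ⟨⟨i, hi⟩, rfl⟩
      have hi' := List.mem_toFinset.1 hi
      exact ⟨⟨i, hlt i hi'⟩, hi', (hP i (hlt i hi')).symm⟩
  have hcard : Fintype.card f.toFinset = d := by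
    rw [Fintype.card_coe, List.toFinset_card_of_nodup hnd, hlen]
  -- affine independence of the facet
  have hA : AffineIndependent ℝ (fun i : f.toFinset => P i) := by
    obtain ⟨e, rfl⟩ : ∃ e, d = e + 1 := ⟨d - 1, by omega⟩
    rw [affineIndependent_iff_finrank_vectorSpan_eq ℝ _ hcard, ← hSr]
    have h1 : vectorSpan ℝ (convexHull ℝ (p '' {i | (i : ℕ) ∈ f})) =
        vectorSpan ℝ (p '' {i | (i : ℕ) ∈ f}) := by
      rw [← direction_affineSpan, affineSpan_convexHull, direction_affineSpan]
    rw [h1] at hdim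
    omega
  -- the points of the facet are on the hyperplane
  have hfc : ∀ i ∈ f, l (P i) = c := by
    intro i hi
    have h1 : P i ∈ convexHull ℝ (p '' {i | (i : ℕ) ∈ f}) := by
      apply subset_convexHull
      exact ⟨⟨i, hlt i hi⟩, hi, (hP i (hlt i hi)).symm⟩
    rw [hQ] at h1
    exact h1.2
  have hfL : ∀ i ∈ f, L (P i) = c' := by
    intro i hi
    have := hL i
    rw [fac_zero d _ f hlen i hi] at this
    linarith
  have hout : ∀ x, x < n → x ∉ f → l (P x) < c := by
    intro x hx hxf
    have h1 : p ⟨x, hx⟩ ∈ convexHull ℝ (Set.range p) := subset_convexHull ℝ _ ⟨_, rfl⟩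
    refine lt_of_le_of_ne (by rw [hP x hx]; exact hle _ h1) ?_
    intro h2
    rw [hP x hx] at h2
    have h3 : p ⟨x, hx⟩ ∈ convexHull ℝ (p '' {i | (i : ℕ) ∈ f}) := by
      rw [hQ]; exact ⟨h1, h2⟩
    have h4 : p ⟨x, hx⟩ ∈ (convexHull ℝ (Set.range p)).extremePoints ℝ := by
      rw [hext]; exact ⟨_, rfl⟩
    have h5 : convexHull ℝ (p '' {i | (i : ℕ) ∈ f}) ⊆ convexHull ℝ (Set.range p) :=
      convexHull_mono (Set.image_subset_range _ _)
    have h6 := inter_extremePoints_subset_extremePoints_of_subset h5 ⟨h3, h4⟩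
    obtain ⟨i, hi, hip⟩ := extremePoints_convexHull_subset h6
    rw [hinj hip] at hi
    exact hxf hi
  -- affine independence with one more point
  have hx1 : ∀ x, x < n → x ∉ f →
      AffineIndependent ℝ (fun i : (f ++ [x]).toFinset => P i) := by
    intro x hx hxf
    have hxm : x ∈ (f ++ [x]).toFinset := by simp
    refine AffineIndependent.affineIndependent_of_notMem_span (i := ⟨x, hxm⟩) ?_ ?_
    · let e : {y : (f ++ [x]).toFinset // y ≠ ⟨x, hxm⟩} ↪ f.toFinset :=
        { toFun := fun y => ⟨y.1.1, by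
            have h1 := y.1.2
            have h2 : (y.1.1 : ℕ) ≠ x := fun h => y.2 (Subtype.ext h)
            simp only [List.toFinset_append, List.toFinset_cons, List.toFinset_nil,
              insert_empty_eq, Finset.mem_union, Finset.mem_singleton] at h1
            exact h1.resolve_right h2⟩
          inj' := by
            intro y z h
            have := congrArg Subtype.val h
            exact Subtype.ext (Subtype.ext this) }
      exact hA.comp_embedding e
    · intro hcon
      have h1 := fac_span l c _ ?_ _ hcon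
      · exact (hout x hx hxf).ne h1
      · rintro _ ⟨y, hy, rfl⟩
        have h1 := y.2
        have h2 : (y.1 : ℕ) ≠ x := fun h => hy (Subtype.ext h)
        simp only [List.toFinset_append, List.toFinset_cons, List.toFinset_nil,
          insert_empty_eq, Finset.mem_union, Finset.mem_singleton] at h1
        exact hfc _ (List.mem_toFinset.1 (h1.resolve_right h2))
  intro x y hx hy hxf hyf
  have hndx : (f ++ [x]).Nodup := by
    rw [List.nodup_append]
    refine ⟨hnd, List.nodup_singleton _, ?_⟩
    intro a ha b hb hab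
    rw [List.mem_singleton] at hb
    subst hb
    subst hab
    exact hxf ha
  have hdx := hPJ d P (f ++ [x]) (by simp [hlen]) hndx (hx1 x hx hxf)
  have hcardx : Fintype.card (f ++ [x]).toFinset = d + 1 := by
    rw [Fintype.card_coe, List.toFinset_card_of_nodup hndx]
    simp [hlen]
  have htop : affineSpan ℝ (Set.range (fun i : (f ++ [x]).toFinset => P i)) = ⊤ := by
    rw [(hx1 x hx hxf).affineSpan_eq_top_iff_card_eq_finrank_add_one, hcardx,
      Module.finrank_fin_fun]
  have hlx := hout x hx hxf
  have hly := hout y hy hyf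
  have key := fac_span ((c - l (P x)) • L + (L (P x) - c') • l)
    ((c - l (P x)) * c' + (L (P x) - c') * c)
    (Set.range (fun i : (f ++ [x]).toFinset => P i)) (by
      rintro _ ⟨⟨i, hi⟩, rfl⟩
      simp only [List.toFinset_append, List.toFinset_cons, List.toFinset_nil,
          insert_empty_eq, Finset.mem_union, Finset.mem_singleton] at hi
      simp only [LinearMap.add_apply, LinearMap.smul_apply, smul_eq_mul]
      rcases hi with hi | hi
      · rw [hfL i (List.mem_toFinset.1 hi), hfc i (List.mem_toFinset.1 hi)]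
      · rw [hi]; ring) (P y) (by rw [htop]; exact AffineSubspace.mem_top _ _ _)
  simp only [LinearMap.add_apply, LinearMap.smul_apply, smul_eq_mul] at key
  rw [hL x] at hdx ⊢
  rw [hL y]
  have h1 : (c - l (P x)) * (L (P y) - c') = (L (P x) - c') * (c - l (P y)) := by
    linear_combination key
  have h2 : 0 < (L (P x) - c') ^ 2 := by positivity
  have h3 : 0 < c - l (P x) := by linarith
  have h4 : 0 < c - l (P y) := by linarith
  have h5 : 0 < (c - l (P x)) * ((L (P x) - c') * (L (P y) - c')) := by
    have : (c - l (P x)) * ((L (P x) - c') * (L (P y) - c')) =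
        (L (P x) - c') ^ 2 * (c - l (P y)) := by
      linear_combination (L (P x) - c') * h1
    rw [this]
    exact mul_pos h2 h4
  exact (pos_iff_pos_of_mul_pos h5).1 h3

end Pool.Agent.Helper54.SP
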