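import Pool.Agent.Helper54.SP.StmtsW

/-!
`RW` of the `SPR_d` project: the bilinear system is well-formed.
-/

namespace Pool.Agent.Helper2.SP

open Pool.Agent.Helper54.SP

theorem RW_app (K : ℕ) (P Q : List (List (ℕ × ℕ))) (h1 : BV K P) (h2 : BV K Q) :
    BV K (P ++ Q) := by
  intro q hq
  rcases List.mem_append.1 hq with h | h
  · exact h1 q h
  · exact h2 q h

theorem RW_fm (K n : ℕ) (f : ℕ → List (List (ℕ × ℕ))) (h : ∀ i, i < n → BV K (f i)) :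
    BV K ((List.range n).flatMap f) := by
  intro q hq
  obtain ⟨i, hi, hq⟩ := List.mem_flatMap.1 hq
  exact h i (List.mem_range.1 hi) q hq

theorem RW_cons (K a1 a2 b1 b2 c1 c2 d1 d2 e1 e2 : ℕ) (Q : List (List (ℕ × ℕ)))
    (h1 : a1 < K) (h2 : a2 < K) (h3 : b1 < K) (h4 : b2 < K) (h5 : c1 < K) (h6 : c2 < K)
    (h7 : d1 < K) (h8 : d2 < K) (h9 : e1 < K) (h10 : e2 < K) (hQ : BV K Q) :
    BV K ([(a1, a2), (b1, b2), (c1, c2), (d1, d2), (e1, e2)] :: Q) := by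
  intro q hq
  rcases List.mem_cons.1 hq with h | h
  · subst h
    refine ⟨rfl, fun z hz => ?_⟩
    simp only [List.mem_cons, List.not_mem_nil, or_false] at hz
    rcases hz with rfl | rfl | rfl | rfl | rfl
    · exact ⟨h1, h2⟩
    · exact ⟨h3, h4⟩
    · exact ⟨h5, h6⟩
    · exact ⟨h7, h8⟩
    · exact ⟨h9, h10⟩
  · exact hQ q h

theorem RW_nil (K : ℕ) : BV K [] := by
  intro q hq
  simp at hq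

theorem RW_sq (K u w : ℕ) (h : 2 ≤ K) (hu : u < K) (hw : w < K) : BV K (sqI u w) := by
  unfold sqI
  refine RW_cons _ _ _ _ _ _ _ _ _ _ _ _ ?_ ?_ ?_ ?_ ?_ ?_ ?_ ?_ ?_ ?_
    (RW_cons _ _ _ _ _ _ _ _ _ _ _ _ ?_ ?_ ?_ ?_ ?_ ?_ ?_ ?_ ?_ ?_ (RW_nil K)) <;> omega

theorem RW_bd (ν u K : ℕ) (hK : K = Kn ν) (hu : u < K) : BV K (bdI ν u) := by
  have hk : K = 8 + an ν + bn ν + 3 * ν := hK
  unfold bdI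
  refine RW_cons _ _ _ _ _ _ _ _ _ _ _ _ ?_ ?_ ?_ ?_ ?_ ?_ ?_ ?_ ?_ ?_
    (RW_cons _ _ _ _ _ _ _ _ _ _ _ _ ?_ ?_ ?_ ?_ ?_ ?_ ?_ ?_ ?_ ?_
    (RW_cons _ _ _ _ _ _ _ _ _ _ _ _ ?_ ?_ ?_ ?_ ?_ ?_ ?_ ?_ ?_ ?_ (RW_nil K))) <;> omega

theorem RW_st (ν K : ℕ) (hK : K = Kn ν) : BV K (stI ν) := by
  have hk : K = 8 + an ν + bn ν + 3 * ν := hK
  have h0 : hv ν 0 = 6 + an ν + 0 := rfl
  have h1 : hv ν (bn ν) = 6 + an ν + bn ν := rfl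
  unfold stI
  rw [h0, h1]
  refine RW_cons _ _ _ _ _ _ _ _ _ _ _ _ ?_ ?_ ?_ ?_ ?_ ?_ ?_ ?_ ?_ ?_
    (RW_cons _ _ _ _ _ _ _ _ _ _ _ _ ?_ ?_ ?_ ?_ ?_ ?_ ?_ ?_ ?_ ?_
    (RW_cons _ _ _ _ _ _ _ _ _ _ _ _ ?_ ?_ ?_ ?_ ?_ ?_ ?_ ?_ ?_ ?_
    (RW_cons _ _ _ _ _ _ _ _ _ _ _ _ ?_ ?_ ?_ ?_ ?_ ?_ ?_ ?_ ?_ ?_
    (RW_cons _ _ _ _ _ _ _ _ _ _ _ _ ?_ ?_ ?_ ?_ ?_ ?_ ?_ ?_ ?_ ?_
    (RW_cons _ _ _ _ _ _ _ _ _ _ _ _ ?_ ?_ ?_ ?_ ?_ ?_ ?_ ?_ ?_ ?_ (RW_nil K)))))) <;> omega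

theorem RW_eq (ν K t : ℕ) (e : Be) (hK : K = Kn ν) (ht : t < ν) (he1 : e.2.1 < ν)
    (he2 : e.2.2.1 < ν) (he3 : e.2.2.2 < ν) : BV K (eqI ν t e) := by
  have hk : K = 8 + an ν + bn ν + 3 * ν := hK
  have x1 : xv ν e.2.1 < K := by
    have : xv ν e.2.1 = 7 + an ν + bn ν + e.2.1 := rfl
    omega
  have x2 : xv ν e.2.2.1 < K := by
    have : xv ν e.2.2.1 = 7 + an ν + bn ν + e.2.2.1 := rfl
    omega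
  have x3 : xv ν e.2.2.2 < K := by
    have : xv ν e.2.2.2 = 7 + an ν + bn ν + e.2.2.2 := rfl
    omega
  have a0 : av ν t 0 < K := by
    have : av ν t 0 = 7 + an ν + bn ν + ν + 2 * t + 0 := rfl
    omega
  have a1 : av ν t 1 < K := by
    have : av ν t 1 = 7 + an ν + bn ν + ν + 2 * t + 1 := rfl
    omega
  have k0 : 8 ≤ K := by omega
  unfold eqI
  split_ifs
  · refine RW_cons _ _ _ _ _ _ _ _ _ _ _ _ ?_ ?_ ?_ ?_ ?_ ?_ ?_ ?_ ?_ ?_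
      (RW_cons _ _ _ _ _ _ _ _ _ _ _ _ ?_ ?_ ?_ ?_ ?_ ?_ ?_ ?_ ?_ ?_ (RW_nil K)) <;> omega
  · refine RW_cons _ _ _ _ _ _ _ _ _ _ _ _ ?_ ?_ ?_ ?_ ?_ ?_ ?_ ?_ ?_ ?_
      (RW_cons _ _ _ _ _ _ _ _ _ _ _ _ ?_ ?_ ?_ ?_ ?_ ?_ ?_ ?_ ?_ ?_ (RW_nil K)) <;> omega
  · refine RW_cons _ _ _ _ _ _ _ _ _ _ _ _ ?_ ?_ ?_ ?_ ?_ ?_ ?_ ?_ ?_ ?_
      (RW_cons _ _ _ _ _ _ _ _ _ _ _ _ ?_ ?_ ?_ ?_ ?_ ?_ ?_ ?_ ?_ ?_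
      (RW_cons _ _ _ _ _ _ _ _ _ _ _ _ ?_ ?_ ?_ ?_ ?_ ?_ ?_ ?_ ?_ ?_
      (RW_cons _ _ _ _ _ _ _ _ _ _ _ _ ?_ ?_ ?_ ?_ ?_ ?_ ?_ ?_ ?_ ?_
      (RW_cons _ _ _ _ _ _ _ _ _ _ _ _ ?_ ?_ ?_ ?_ ?_ ?_ ?_ ?_ ?_ ?_
      (RW_cons _ _ _ _ _ _ _ _ _ _ _ _ ?_ ?_ ?_ ?_ ?_ ?_ ?_ ?_ ?_ ?_ (RW_nil K)))))) <;> omega

theorem st_RW : ST_RW := by
  intro E hE
  have hk : Kn E.length = 8 + an E.length + bn E.length + 3 * E.length := rfl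
  unfold bil
  refine RW_app _ _ _ (RW_st _ _ rfl) (RW_app _ _ _ (RW_fm _ _ _ fun i hi => ?_)
    (RW_app _ _ _ (RW_fm _ _ _ fun i hi => ?_) (RW_app _ _ _ (RW_bd _ _ _ rfl ?_)
    (RW_app _ _ _ (RW_fm _ _ _ fun i hi => RW_bd _ _ _ rfl ?_)
      (RW_fm _ _ _ fun t ht => ?_)))))
  · exact RW_sq _ _ _ (by omega) (by omega) (by omega)
  · have h1 : hv E.length i = 6 + an E.length + i := rfl
    have h2 : hv E.length (i + 1) = 6 + an E.length + (i + 1) := rfl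
    exact RW_sq _ _ _ (by omega) (by omega) (by omega)
  · omega
  · have h1 : xv E.length i = 7 + an E.length + bn E.length + i := rfl
    omega
  · have hm : E.getD t (0, 0, 0, 0) ∈ E := by
      rw [List.getD_eq_getElem _ _ ht]
      exact List.getElem_mem ht
    obtain ⟨h1, h2, h3⟩ := hE _ hm
    exact RW_eq _ _ _ _ rfl ht h1 h2 h3

end Pool.Agent.Helper2.SP
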